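import Mathlib
import Pool.Agent.Y228.HX.Defs
import Pool.Agent.Y228.HX.Stm

set_option autoImplicit false

/-! # The box polynomials -/

namespace Pool.Agent.Y155.HX

open Pool.Agent.Y228.HX

section

variable {R N : ℕ} (v : Fin R → Fin N → ℕ) (I : Finset (Fin R))

/-- The involution. -/
def inv (y : (Fin N → ℤ) × ℤ) : (Fin N → ℤ) × ℤ :=
  (fun i => ∑ j ∈ I, (v j i : ℤ) - y.1 i, (I.card : ℤ) - y.2)

theorem inv_inv (y : (Fin N → ℤ) × ℤ) : inv v I (inv v I y) = y := by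
  refine Prod.ext ?_ ?_
  · funext i
    simp [inv]
  · simp [inv]

theorem inv_inj : Function.Injective (inv v I) :=
  Function.LeftInverse.injective (inv_inv v I)

theorem sum_off (f : Fin R → ℚ) : ∑ j, (if j ∈ I then f j else 0) = ∑ j ∈ I, f j := by
  rw [Finset.sum_ite_mem, Finset.univ_inter]

theorem inv_key {y : (Fin N → ℤ) × ℤ} {l : Fin R → ℚ} (h0 : ∀ j, j ∉ I → l j = 0)
    (h1 : ∀ i, (y.1 i : ℚ) = ∑ j, l j * (v j i : ℚ)) (h2 : (y.2 : ℚ) = ∑ j, l j) :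
    (∀ i, ((inv v I y).1 i : ℚ) = ∑ j, (if j ∈ I then 1 - l j else 0) * (v j i : ℚ)) ∧
      ((inv v I y).2 : ℚ) = ∑ j, (if j ∈ I then 1 - l j else 0) := by
  have e0 : ∀ f : Fin R → ℚ, ∑ j, l j * f j = ∑ j ∈ I, l j * f j := by
    intro f
    rw [← sum_off I]
    refine Finset.sum_congr rfl fun j _ => ?_
    by_cases hj : j ∈ I
    · rw [if_pos hj]
    · rw [if_neg hj, h0 j hj, zero_mul]
  constructor
  · intro i
    have e1 : ∀ j, (if j ∈ I then 1 - l j else 0) * (v j i : ℚ) =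
        if j ∈ I then (1 - l j) * (v j i : ℚ) else 0 := by
      intro j
      by_cases hj : j ∈ I
      · rw [if_pos hj, if_pos hj]
      · rw [if_neg hj, if_neg hj, zero_mul]
    simp only [e1]
    rw [sum_off I]
    have e2 : ((inv v I y).1 i : ℚ) = ∑ j ∈ I, (v j i : ℚ) - (y.1 i : ℚ) := by
      simp [inv]
    rw [e2, h1, e0, ← Finset.sum_sub_distrib]
    refine Finset.sum_congr rfl fun j _ => ?_
    ring
  · rw [sum_off I]
    have e2 : ((inv v I y).2 : ℚ) = (I.card : ℚ) - (y.2 : ℚ) := by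
      simp [inv]
    have e3 : ∑ j, l j = ∑ j ∈ I, l j := by
      have := e0 (fun _ => 1)
      simpa using this
    rw [e2, h2, e3, Finset.sum_sub_distrib]
    simp

theorem inv_mem01 {y : (Fin N → ℤ) × ℤ} (h : y ∈ Box0 v I) : inv v I y ∈ Box1 v I := by
  obtain ⟨l, h0, hl, h1, h2⟩ := h
  obtain ⟨h3, h4⟩ := inv_key v I h0 h1 h2
  refine ⟨fun j => if j ∈ I then 1 - l j else 0, fun j hj => if_neg hj, fun j hj => ?_, h3, h4⟩
  simp only [if_pos hj]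
  have := hl j hj
  constructor <;> linarith

theorem inv_mem10 {y : (Fin N → ℤ) × ℤ} (h : y ∈ Box1 v I) : inv v I y ∈ Box0 v I := by
  obtain ⟨l, h0, hl, h1, h2⟩ := h
  obtain ⟨h3, h4⟩ := inv_key v I h0 h1 h2
  refine ⟨fun j => if j ∈ I then 1 - l j else 0, fun j hj => if_neg hj, fun j hj => ?_, h3, h4⟩
  simp only [if_pos hj]
  have := hl j hj
  constructor <;> linarith

/-- The bounds. -/
theorem bounds {y : (Fin N → ℤ) × ℤ} {l : Fin R → ℚ} (h0 : ∀ j, j ∉ I → l j = 0)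
    (hl : ∀ j ∈ I, 0 ≤ l j ∧ l j ≤ 1) (h1 : ∀ i, (y.1 i : ℚ) = ∑ j, l j * (v j i : ℚ))
    (h2 : (y.2 : ℚ) = ∑ j, l j) :
    (∀ i, 0 ≤ y.1 i ∧ y.1 i ≤ ∑ j, (v j i : ℤ)) ∧ 0 ≤ y.2 ∧ y.2 ≤ I.card := by
  have hl' : ∀ j, 0 ≤ l j ∧ l j ≤ 1 := by
    intro j
    by_cases hj : j ∈ I
    · exact hl j hj
    · rw [h0 j hj]
      exact ⟨le_rfl, zero_le_one⟩
  refine ⟨fun i => ⟨?_, ?_⟩, ?_, ?_⟩
  · have h3 : (0 : ℚ) ≤ (y.1 i : ℚ) := by
      rw [h1]
      exact Finset.sum_nonneg fun j _ => mul_nonneg (hl' j).1 (Nat.cast_nonneg _)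
    exact_mod_cast h3
  · have h3 : (y.1 i : ℚ) ≤ ∑ j, (v j i : ℚ) := by
      rw [h1]
      refine Finset.sum_le_sum fun j _ => ?_
      calc l j * (v j i : ℚ) ≤ 1 * (v j i : ℚ) :=
            mul_le_mul_of_nonneg_right (hl' j).2 (Nat.cast_nonneg _)
        _ = _ := one_mul _
    exact_mod_cast h3
  · have h3 : (0 : ℚ) ≤ (y.2 : ℚ) := by
      rw [h2]
      exact Finset.sum_nonneg fun j _ => (hl' j).1
    exact_mod_cast h3
  · have h3 : (y.2 : ℚ) ≤ (I.card : ℚ) := by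
      rw [h2]
      have e : ∑ j, l j = ∑ j ∈ I, l j := by
        rw [← sum_off I]
        refine Finset.sum_congr rfl fun j _ => ?_
        by_cases hj : j ∈ I
        · rw [if_pos hj]
        · rw [if_neg hj, h0 j hj]
      rw [e]
      calc ∑ j ∈ I, l j ≤ ∑ _j ∈ I, (1 : ℚ) := Finset.sum_le_sum fun j _ => (hl' j).2
        _ = _ := by simp
    exact_mod_cast h3

theorem bounds0 {y : (Fin N → ℤ) × ℤ} (h : y ∈ Box0 v I) :
    (∀ i, 0 ≤ y.1 i ∧ y.1 i ≤ ∑ j, (v j i : ℤ)) ∧ 0 ≤ y.2 ∧ y.2 ≤ I.card := by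
  obtain ⟨l, h0, hl, h1, h2⟩ := h
  exact bounds v I h0 (fun j hj => ⟨(hl j hj).1, (hl j hj).2.le⟩) h1 h2

theorem bounds1 {y : (Fin N → ℤ) × ℤ} (h : y ∈ Box1 v I) :
    (∀ i, 0 ≤ y.1 i ∧ y.1 i ≤ ∑ j, (v j i : ℤ)) ∧ 0 ≤ y.2 ∧ y.2 ≤ I.card := by
  obtain ⟨l, h0, hl, h1, h2⟩ := h
  exact bounds v I h0 (fun j hj => ⟨(hl j hj).1.le, (hl j hj).2⟩) h1 h2

theorem fin0 : (Box0 v I).Finite := by
  refine ((Set.finite_Icc (fun _ : Fin N => (0 : ℤ)) (fun i => ∑ j, (v j i : ℤ))).prod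
    (Set.finite_Icc (0 : ℤ) (I.card : ℤ))).subset ?_
  intro y hy
  obtain ⟨h1, h2, h3⟩ := bounds0 v I hy
  exact ⟨⟨fun i => (h1 i).1, fun i => (h1 i).2⟩, ⟨h2, h3⟩⟩

theorem fin1 : (Box1 v I).Finite := by
  refine ((Set.finite_Icc (fun _ : Fin N => (0 : ℤ)) (fun i => ∑ j, (v j i : ℤ))).prod
    (Set.finite_Icc (0 : ℤ) (I.card : ℤ))).subset ?_
  intro y hy
  obtain ⟨h1, h2, h3⟩ := bounds1 v I hy
  exact ⟨⟨fun i => (h1 i).1, fun i => (h1 i).2⟩, ⟨h2, h3⟩⟩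

theorem nBox_flip {k : ℕ} (hk : k ≤ I.card) : nBox1 v I k = nBox0 v I (I.card - k) := by
  have e : {y | y ∈ Box1 v I ∧ y.2 = k} =
      inv v I '' {y | y ∈ Box0 v I ∧ y.2 = ((I.card - k : ℕ) : ℤ)} := by
    ext y
    constructor
    · rintro ⟨h1, h2⟩
      refine ⟨inv v I y, ⟨inv_mem10 v I h1, ?_⟩, inv_inv v I y⟩
      simp only [inv]
      rw [h2, Nat.cast_sub hk]
    · rintro ⟨z, ⟨h1, h2⟩, rfl⟩
      refine ⟨inv_mem01 v I h1, ?_⟩
      simp only [inv]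
      rw [h2, Nat.cast_sub hk]
      ring
  rw [nBox1, nBox0, e, Set.ncard_image_of_injective _ (inv_inj v I)]

theorem nBox1_zero {k : ℕ} (hk : I.card < k) : nBox1 v I k = 0 := by
  rw [nBox1]
  have e : {y | y ∈ Box1 v I ∧ y.2 = (k : ℤ)} = ∅ := by
    rw [Set.eq_empty_iff_forall_notMem]
    rintro y ⟨h1, h2⟩
    have := (bounds1 v I h1).2.2
    omega
  rw [e, Set.ncard_empty]

theorem nBox0_zero {k : ℕ} (hk : I.card < k) : nBox0 v I k = 0 := by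
  rw [nBox0]
  have e : {y | y ∈ Box0 v I ∧ y.2 = (k : ℤ)} = ∅ := by
    rw [Set.eq_empty_iff_forall_notMem]
    rintro y ⟨h1, h2⟩
    have := (bounds0 v I h1).2.2
    omega
  rw [e, Set.ncard_empty]

theorem card_le' : I.card ≤ R := by
  have := I.card_le_univ
  rwa [Fintype.card_fin] at this

theorem aeval_sum (f : ℕ → ℕ) (hf : ∀ k, I.card < k → f k = 0) (z : ℂ) :
    Polynomial.aeval z (∑ k ∈ Finset.range (R + 1), Polynomial.C (f k : ℚ) * Polynomial.X ^ k) =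
      ∑ k ∈ Finset.range (I.card + 1), (f k : ℂ) * z ^ k := by
  rw [map_sum]
  have e : ∀ k, Polynomial.aeval z (Polynomial.C (f k : ℚ) * Polynomial.X ^ k) =
      (f k : ℂ) * z ^ k := by
    intro k
    rw [map_mul, map_pow, Polynomial.aeval_X, Polynomial.aeval_C]
    simp
  simp only [e]
  symm
  apply Finset.sum_subset
  · intro k hk
    rw [Finset.mem_range] at hk ⊢
    have := card_le' I
    omega
  · intro k _ hk
    rw [Finset.mem_range, not_lt] at hk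
    rw [hf k (by omega)]
    simp

end

/-- HX-BOX -/
theorem t_BOX : S_BOX := by
  intro R N v I hI
  refine ⟨fin0 v I, fin1 v I, fun q hq => ?_⟩
  have hq0 : (q : ℂ) ≠ 0 := by
    have : q ≠ 0 := by omega
    exact_mod_cast this
  have h1 : Polynomial.aeval (q : ℂ) (P1 v I) =
      (q : ℂ) ^ I.card * Polynomial.aeval ((q : ℂ)⁻¹) (P0 v I) := by
    rw [P1, P0, aeval_sum I _ (fun k hk => nBox1_zero v I hk),
      aeval_sum I _ (fun k hk => nBox0_zero v I hk), Finset.mul_sum,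
      ← Finset.sum_flip (fun k => (q : ℂ) ^ I.card * ((nBox0 v I k : ℂ) * (q : ℂ)⁻¹ ^ k))]
    refine Finset.sum_congr rfl fun k hk => ?_
    have hk' : k ≤ I.card := by
      rw [Finset.mem_range] at hk
      omega
    rw [nBox_flip v I hk']
    have e : (q : ℂ) ^ I.card = (q : ℂ) ^ (I.card - k) * (q : ℂ) ^ k := by
      rw [← pow_add]
      congr 1
      omega
    rw [e, inv_pow]
    have h2 : (q : ℂ) ^ (I.card - k) ≠ 0 := pow_ne_zero _ hq0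
    field_simp
  have hq1 : (1 : ℂ) - (q : ℂ) ≠ 0 := by
    intro h
    have h2 : (q : ℂ) = 1 := (sub_eq_zero.1 h).symm
    have h3 : q = 1 := by exact_mod_cast h2
    omega
  have e1 : (1 : ℂ) - q = -(q * (1 - (q : ℂ)⁻¹)) := by
    rw [mul_sub, mul_inv_cancel₀ hq0]
    ring
  have h5 : (1 : ℂ) - (q : ℂ)⁻¹ ≠ 0 := by
    intro h
    apply hq1
    rw [e1, h, mul_zero, neg_zero]
  have e2 : ((1 : ℂ) - q) ^ I.card = (-1) ^ I.card * ((q : ℂ) ^ I.card *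
      (1 - (q : ℂ)⁻¹) ^ I.card) := by
    rw [e1, neg_eq_neg_one_mul, mul_pow, mul_pow]
  rw [gI, if_pos hI, h1, e2]
  have h6 : (q : ℂ) ^ I.card ≠ 0 := pow_ne_zero _ hq0
  have h7 : ((1 : ℂ) - (q : ℂ)⁻¹) ^ I.card ≠ 0 := pow_ne_zero _ h5
  have h8 : ((-1 : ℂ)) ^ I.card ≠ 0 := pow_ne_zero _ (by norm_num)
  have h9 : ((-1 : ℂ)) ^ I.card * (-1) ^ I.card = 1 := by
    rw [← mul_pow]
    norm_num
  rw [div_eq_div_iff (mul_ne_zero h8 (mul_ne_zero h6 h7)) h7]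
  linear_combination (-((q : ℂ) ^ I.card * Polynomial.aeval ((q : ℂ)⁻¹) (P0 v I) *
    (1 - (q : ℂ)⁻¹) ^ I.card)) * h9

end Pool.Agent.Y155.HX
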